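import Pool.Agent.U19.PC.Base

/-! # The Post correspondence problem for four pairs of nonempty binary words is undecidable

The instances used have only two varying parameters: a number `k` and a word `v`. -/

set_option autoImplicit false

namespace Pool.Agent.Results.MP_07c050_lc.FourNonemptyPairs

open Pool.Agent.U19.PC Pool.Agent.Helper231_PCP

/-- Two lists `g 1, …, g n` and `h 1, …, h n` of words over `{0, 1}` (`false` is `0`). -/
abbrev Inst (n : ℕ) : Type := (Fin n → List Bool) × (Fin n → List Bool)

/-- All the words of the two lists are nonempty. -/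
def Nonerasing {n : ℕ} (I : Inst n) : Prop := ∀ i, I.1 i ≠ [] ∧ I.2 i ≠ []

/-- `g(w) = h(w)` for some nonempty word `w` over the `n` letters. -/
def Positive {n : ℕ} (I : Inst n) : Prop :=
  ∃ w : List (Fin n), w ≠ [] ∧ w.flatMap I.1 = w.flatMap I.2

/-- `PCP(n)` is decidable: some algorithm answers correctly on all nonerasing instances. -/
def PCPDecidable (n : ℕ) : Prop :=
  ∃ f : Inst n → Bool, Computable f ∧ ∀ I, Nonerasing I → (f I = true ↔ Positive I)

/-- The four pairs `(010^{2k}, 00)`, `(100^{2k}, 00)`, `(010^{2k}, 01)`, `(100^{2k}, v)`. -/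
def four (k : ℕ) (v : List Bool) : Inst 4 :=
  (![false :: true :: List.replicate (2 * k) false, true :: false :: List.replicate (2 * k) false,
     false :: true :: List.replicate (2 * k) false, true :: false :: List.replicate (2 * k) false],
   ![[false, false], [false, false], [false, true], v])

theorem four_nonerasing (k : ℕ) {v : List Bool} (hv : v ≠ []) : Nonerasing (four k v) := by
  intro i
  fin_cases i
  · exact ⟨List.cons_ne_nil _ _, List.cons_ne_nil _ _⟩
  · exact ⟨List.cons_ne_nil _ _, List.cons_ne_nil _ _⟩
  · exact ⟨List.cons_ne_nil _ _, List.cons_ne_nil _ _⟩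
  · exact ⟨List.cons_ne_nil _ _, hv⟩

theorem code_g (k : ℕ) (v : List Bool) (i : Fin 4) : (gI k i).flatMap cB = (four k v).1 i := by
  have h := code_replicate k
  fin_cases i <;> simp [gI, four, h, cB]

theorem code_h (k : ℕ) (u : List Bool) (i : Fin 4) :
    (hI k u i).flatMap cB = (four k ((encm k u).flatMap cB)).2 i := by
  fin_cases i <;> simp [hI, four, cB]

theorem pos_iff (k : ℕ) (u : List Bool) :
    PCPpos (gI k, hI k u) ↔ Positive (four k ((encm k u).flatMap cB)) := by
  have key1 : ∀ w : List (Fin 4), w.flatMap (four k ((encm k u).flatMap cB)).1 =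
      (ext (gI k) w).flatMap cB := by
    intro w
    unfold ext
    rw [List.flatMap_assoc]
    congr 1
    funext i
    exact (code_g k _ i).symm
  have key2 : ∀ w : List (Fin 4), w.flatMap (four k ((encm k u).flatMap cB)).2 =
      (ext (hI k u) w).flatMap cB := by
    intro w
    unfold ext
    rw [List.flatMap_assoc]
    congr 1
    funext i
    exact (code_h k u i).symm
  have hg : ∀ w : List (Fin 4), ∀ x ∈ ext (gI k) w, x ≤ 2 := by
    intro w x hx
    unfold ext at hx
    rw [List.mem_flatMap] at hx
    obtain ⟨i, _, hi⟩ := hx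
    exact gI_le k i x hi
  have hh : ∀ w : List (Fin 4), ∀ x ∈ ext (hI k u) w, x ≤ 2 := by
    intro w x hx
    unfold ext at hx
    rw [List.mem_flatMap] at hx
    obtain ⟨i, _, hi⟩ := hx
    exact hI_le k u i x hi
  constructor
  · rintro ⟨w, hw, h⟩
    refine ⟨w, hw, ?_⟩
    rw [key1, key2]
    exact congrArg (fun z => List.flatMap cB z) h
  · rintro ⟨w, hw, h⟩
    refine ⟨w, hw, ?_⟩
    rw [key1, key2] at h
    exact code_inj _ _ (hg w) (hh w) h

/-- the two-parameter family is undecidable -/
theorem family_undecidable : ¬ ∃ f : ℕ × List Bool → Bool, Computable f ∧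
    ∀ k v, 2 ≤ k → v ≠ [] → (f (k, v) = true ↔ Positive (four k v)) := by
  rintro ⟨f, hf, h⟩
  obtain ⟨K, U, hK, hU, hKU, hund⟩ := family4
  have hcode : Primrec (fun p : ℕ × List Bool => (hI p.1 p.2 3).flatMap cB) := by
    have h1 : Primrec (fun p : ℕ × List Bool => hI p.1 p.2 3) := p_hI 3 Primrec.fst Primrec.snd
    have h2 : Primrec cB := by
      unfold cB
      apply Primrec.ite
      · exact Primrec.eq.comp Primrec.id (Primrec.const _)
      · exact Primrec.const _
      · apply Primrec.ite
        · exact Primrec.eq.comp Primrec.id (Primrec.const _)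
        · exact Primrec.const _
        · exact Primrec.const _
    exact Primrec.list_flatMap h1 (h2.comp Primrec.snd).to₂
  have hc : Computable (fun n => (K n, (hI (K n) (U n) 3).flatMap cB)) :=
    hK.pair (hcode.to_comp.comp (hK.pair hU))
  have hfc : Computable (fun n => f (K n, (hI (K n) (U n) 3).flatMap cB)) := hf.comp hc
  apply hund
  rw [ComputablePred.computable_iff]
  refine ⟨_, hfc, ?_⟩
  funext n
  have e1 : (hI (K n) (U n) 3).flatMap cB = (encm (K n) (U n)).flatMap cB := by simp [hI]
  have e2 := h (K n) ((encm (K n) (U n)).flatMap cB) (hKU n).1 (code_ne_nil (encm_ne _ (hKU n).2))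
  rw [e1]
  exact propext ((pos_iff (K n) (U n)).trans e2.symm)

/-- repeating pairs -/
theorem pos_repeat {m : ℕ} (e : Fin m → Fin 4) (he : Function.Surjective e) (I : Inst 4) :
    Positive ((fun i => I.1 (e i)), (fun i => I.2 (e i))) ↔ Positive I := by
  have key : ∀ (h : Fin 4 → List Bool) (w : List (Fin m)),
      w.flatMap (fun i => h (e i)) = (w.map e).flatMap h := by
    intro h w
    rw [List.flatMap_map]
  constructor
  · rintro ⟨w, hw, h⟩
    refine ⟨w.map e, by simpa using hw, ?_⟩
    rw [← key, ← key]
    exact h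
  · rintro ⟨w, hw, h⟩
    obtain ⟨g, hg⟩ := he.hasRightInverse
    refine ⟨w.map g, by simpa using hw, ?_⟩
    change (w.map g).flatMap (fun i => I.1 (e i)) = (w.map g).flatMap (fun i => I.2 (e i))
    rw [key, key, List.map_map]
    have : e ∘ g = id := funext hg
    rw [this, List.map_id]
    exact h

theorem prim_g (i : Fin 4) : Primrec (fun p : ℕ × List Bool => (four p.1 p.2).1 i) := by
  have h0 : Primrec (fun p : ℕ × List Bool => List.replicate (2 * p.1) false) :=
    p_replicate false (p_mul (Primrec.const _) Primrec.fst)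
  have h1 : Primrec (fun p : ℕ × List Bool => false :: true :: List.replicate (2 * p.1) false) :=
    Primrec.list_cons.comp (Primrec.const _) (Primrec.list_cons.comp (Primrec.const _) h0)
  have h2 : Primrec (fun p : ℕ × List Bool => true :: false :: List.replicate (2 * p.1) false) :=
    Primrec.list_cons.comp (Primrec.const _) (Primrec.list_cons.comp (Primrec.const _) h0)
  fin_cases i
  · exact h1
  · exact h2
  · exact h1
  · exact h2

theorem prim_h (i : Fin 4) : Primrec (fun p : ℕ × List Bool => (four p.1 p.2).2 i) := by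
  fin_cases i
  · exact Primrec.const [false, false]
  · exact Primrec.const [false, false]
  · exact Primrec.const [false, true]
  · exact Primrec.snd

theorem undecidable (n : ℕ) (hn : 4 ≤ n) : ¬ PCPDecidable n := by
  rintro ⟨f, hf, h⟩
  apply family_undecidable
  let e : Fin n → Fin 4 := fun i => if h : (i : ℕ) < 4 then ⟨i, h⟩ else 0
  have he : Function.Surjective e := by
    intro j
    refine ⟨⟨j, by omega⟩, ?_⟩
    simp [e]
  have hp : Primrec (fun p : ℕ × List Bool =>
      (((fun i => (four p.1 p.2).1 (e i)), (fun i => (four p.1 p.2).2 (e i))) : Inst n)) := by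
    apply Primrec.pair
    · apply Primrec.fin_curry.2
      apply Primrec₂.swap
      apply Primrec.fin_curry₁.2
      intro i
      exact prim_g (e i)
    · apply Primrec.fin_curry.2
      apply Primrec₂.swap
      apply Primrec.fin_curry₁.2
      intro i
      exact prim_h (e i)
  refine ⟨_, hf.comp hp.to_comp, ?_⟩
  intro k v _ hv
  rw [h _ (fun i => four_nonerasing k hv (e i))]
  exact pos_repeat e he (four k v)

/-- The Post correspondence problem for four pairs of nonempty binary words is undecidable, even
for the instances `four k v`, and so is the problem for `n` pairs, `n ≥ 4`; so the least `n` for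
which `PCP(n)` is undecidable is at most four. -/
theorem result :
    (¬ ∃ f : ℕ × List Bool → Bool, Computable f ∧
      ∀ k v, 2 ≤ k → v ≠ [] → (f (k, v) = true ↔ Positive (four k v))) ∧
    (∀ n : ℕ, 4 ≤ n → ¬ PCPDecidable n) ∧
    ∃ N : ℕ, N ≤ 4 ∧ IsLeast {n : ℕ | 1 ≤ n ∧ ¬ PCPDecidable n} N := by
  classical
  refine ⟨family_undecidable, undecidable, ?_⟩
  have hex : ∃ n, 1 ≤ n ∧ ¬ PCPDecidable n := ⟨4, by omega, undecidable 4 le_rfl⟩
  exact ⟨Nat.find hex, Nat.find_min' hex ⟨by omega, undecidable 4 le_rfl⟩, Nat.find_spec hex,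
    fun m hm => Nat.find_min' hex hm⟩

end Pool.Agent.Results.MP_07c050_lc.FourNonemptyPairs
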